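import Pool.Agent.H89.KD.Stmts

/-!
# LEI: the rule of Leibniz for the product with a linear function
-/

set_option autoImplicit false

open MeasureTheory Set Filter Topology
open scoped ContDiff

namespace Pool.Agent.H34.KD

open Pool.Agent.H89.KD
open Pool.Agent.H84 Pool.Agent.H84.Sym Pool.Agent.H84.Sym.P2x Pool.Agent.H19.KL
open Pool.Agent.H73.KG Pool.Agent.H20.KH

variable {E : Type} [NormedAddCommGroup E] [InnerProductSpace ℝ E]

theorem lei_D (w : E) (F : E → ℝ) (hF : ContDiff ℝ ∞ F) : ContDiff ℝ ∞ (D w F) := by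
  unfold D
  exact (hF.fderiv_right (m := ∞) (by simp)).clm_apply contDiff_const

theorem lei_DL (l : List E) (F : E → ℝ) (hF : ContDiff ℝ ∞ F) : ContDiff ℝ ∞ (DL l F) := by
  induction l with
  | nil => simpa using hF
  | cons w l ih => rw [DL_cons]; exact lei_D w _ ih

theorem lei_diff (l : List E) (F : E → ℝ) (hF : ContDiff ℝ ∞ F) (θ : E) :
    DifferentiableAt ℝ (DL l F) θ :=
  ((lei_DL l F hF).differentiable (by simp)) θ

theorem lei_thm [FiniteDimensional ℝ E] [MeasurableSpace E] [BorelSpace E] : LEIStmt E := by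
  intro v F hF l
  induction l with
  | nil => intro θ; simp
  | cons w l ih =>
    intro θ
    have h1 : DL l (fun θ => inner ℝ v θ * F θ) = fun θ => inner ℝ v θ * DL l F θ +
        ∑ i : Fin l.length, inner ℝ v (l.get i) * DL (l.eraseIdx i) F θ := funext ih
    rw [DL_cons, h1]
    unfold D
    have hin : HasFDerivAt (fun θ : E => inner ℝ v θ) (innerSL ℝ v) θ := (innerSL ℝ v).hasFDerivAt
    have hd := (lei_diff l F hF θ).hasFDerivAt
    have hs : HasFDerivAt (fun θ => ∑ i : Fin l.length, inner ℝ v (l.get i) *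
        DL (l.eraseIdx i) F θ) (∑ i : Fin l.length, (inner ℝ v (l.get i) : ℝ) •
          fderiv ℝ (DL (l.eraseIdx i) F) θ) θ := by
      apply HasFDerivAt.fun_sum
      intro i _
      exact (lei_diff (l.eraseIdx i) F hF θ).hasFDerivAt.const_mul _
    have hall := (hin.mul hd).add hs
    have hall' : fderiv ℝ (fun θ => inner ℝ v θ * DL l F θ +
        ∑ i : Fin l.length, inner ℝ v (l.get i) * DL (l.eraseIdx i) F θ) θ = _ := hall.fderiv
    rw [hall']
    have hlen : (w :: l).length = l.length + 1 := rfl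
    have hsum : ∑ i : Fin (w :: l).length, (inner ℝ v ((w :: l).get i) : ℝ) *
        DL ((w :: l).eraseIdx i) F θ = inner ℝ v w * DL l F θ +
        ∑ i : Fin l.length, inner ℝ v (l.get i) * D w (DL (l.eraseIdx i) F) θ := by
      rw [show (∑ i : Fin (w :: l).length, (inner ℝ v ((w :: l).get i) : ℝ) *
        DL ((w :: l).eraseIdx i) F θ) = ∑ i : Fin (l.length + 1), (inner ℝ v ((w :: l).get i) : ℝ) *
        DL ((w :: l).eraseIdx i) F θ from rfl, Fin.sum_univ_succ]
      rfl
    rw [hsum]
    simp only [ContinuousLinearMap.add_apply, ContinuousLinearMap.smul_apply,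
      ContinuousLinearMap.sum_apply, smul_eq_mul, innerSL_apply_apply]
    unfold D
    rw [DL_cons]
    unfold D
    ring

end Pool.Agent.H34.KD
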